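import Pool.Agent.TH280.DH.Stm

/-!
# A cutoff on the circle with prescribed mean and small transition
-/

set_option autoImplicit false

namespace Pool.Agent.TH416.DH.Psi

open Complex Polynomial Filter Topology MeasureTheory
open Pool.Agent.TH280.DH

theorem re_circle (θ : ℝ) : (circleMap 0 1 θ).re = Real.cos θ := by
  simp [circleMap, Complex.exp_ofReal_mul_I_re]

/-- averages of functions of the angle -/
theorem av_arccos (H : ℝ → ℝ) (hH : IntervalIntegrable H volume 0 Real.pi) :
    av (fun z => H (Real.arccos z.re)) = Real.pi⁻¹ * ∫ θ in (0 : ℝ)..Real.pi, H θ := by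
  obtain ⟨F, hF⟩ : ∃ F : ℝ → ℝ, F = fun θ => H (Real.arccos (Real.cos θ)) := ⟨_, rfl⟩
  have hpi := Real.pi_pos
  have h1 : ∀ θ ∈ Set.uIcc (0 : ℝ) Real.pi, H θ = F θ := by
    intro θ hθ
    rw [Set.uIcc_of_le hpi.le] at hθ
    rw [hF]
    show H θ = H (Real.arccos (Real.cos θ))
    rw [Real.arccos_cos hθ.1 hθ.2]
  have h2 : IntervalIntegrable F volume 0 Real.pi :=
    (intervalIntegrable_congr fun θ hθ => h1 θ (Set.uIoc_subset_uIcc hθ)).mp hH
  have h3 : ∀ θ, F (2 * Real.pi - θ) = F θ := by
    intro θ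
    rw [hF]
    show H (Real.arccos (Real.cos (2 * Real.pi - θ))) = H (Real.arccos (Real.cos θ))
    rw [Real.cos_two_pi_sub]
  have h4 : IntervalIntegrable F volume Real.pi (2 * Real.pi) := by
    have h5 := h2.comp_sub_left (2 * Real.pi)
    rw [show 2 * Real.pi - 0 = 2 * Real.pi by ring,
      show 2 * Real.pi - Real.pi = Real.pi by ring] at h5
    have h6 : (fun θ => F (2 * Real.pi - θ)) = F := funext h3
    rw [h6] at h5
    exact h5.symm
  have h5 : ∫ θ in Real.pi..(2 * Real.pi), F θ = ∫ θ in (0 : ℝ)..Real.pi, F θ := by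
    have h6 := intervalIntegral.integral_comp_sub_left (a := Real.pi) (b := 2 * Real.pi) F
      (2 * Real.pi)
    rw [show 2 * Real.pi - 2 * Real.pi = 0 by ring,
      show 2 * Real.pi - Real.pi = Real.pi by ring] at h6
    rw [← h6]
    exact intervalIntegral.integral_congr fun θ _ => (h3 θ).symm
  unfold av
  rw [Real.circleAverage_def]
  simp only [re_circle, smul_eq_mul]
  have h6 : (fun θ => H (Real.arccos (Real.cos θ))) = F := hF.symm
  rw [h6, ← intervalIntegral.integral_add_adjacent_intervals h2 h4, h5,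
    intervalIntegral.integral_congr h1]
  field_simp
  ring

/-- the profile -/
noncomputable def Hf (a k θ : ℝ) : ℝ := max 0 (min 1 ((a - θ) / k))

theorem Hf_cont (a k : ℝ) : Continuous (Hf a k) := by
  unfold Hf
  fun_prop

theorem Hf_int {a k : ℝ} (hk : 0 < k) (h1 : k ≤ a) (h2 : a ≤ Real.pi) :
    ∫ θ in (0 : ℝ)..Real.pi, Hf a k θ = a - k / 2 := by
  have hi : ∀ x y : ℝ, IntervalIntegrable (Hf a k) volume x y := fun x y =>
    (Hf_cont a k).intervalIntegrable x y
  rw [← intervalIntegral.integral_add_adjacent_intervals (hi 0 (a - k)) (hi (a - k) Real.pi),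
    ← intervalIntegral.integral_add_adjacent_intervals (hi (a - k) a) (hi a Real.pi)]
  have e1 : ∫ θ in (0 : ℝ)..(a - k), Hf a k θ = a - k := by
    rw [intervalIntegral.integral_congr (g := fun _ => (1 : ℝ))]
    · simp
    · intro θ hθ
      rw [Set.uIcc_of_le (by linarith)] at hθ
      show max 0 (min 1 ((a - θ) / k)) = 1
      have h3 : 1 ≤ (a - θ) / k := by
        rw [le_div_iff₀ hk]
        linarith [hθ.2]
      rw [min_eq_left h3, max_eq_right zero_le_one]
  have e2 : ∫ θ in (a - k)..a, Hf a k θ = k / 2 := by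
    rw [intervalIntegral.integral_congr (g := fun θ => (a - θ) / k)]
    · rw [intervalIntegral.integral_div, intervalIntegral.integral_sub (by simp) (by simp)]
      simp only [intervalIntegral.integral_const, integral_id, smul_eq_mul]
      field_simp
      ring
    · intro θ hθ
      rw [Set.uIcc_of_le (by linarith)] at hθ
      show max 0 (min 1 ((a - θ) / k)) = (a - θ) / k
      have h3 : (a - θ) / k ≤ 1 := by
        rw [div_le_one hk]
        linarith [hθ.1]
      have h4 : 0 ≤ (a - θ) / k := div_nonneg (by linarith [hθ.2]) hk.le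
      rw [min_eq_right h3, max_eq_right h4]
  have e3 : ∫ θ in a..Real.pi, Hf a k θ = 0 := by
    rw [intervalIntegral.integral_congr (g := fun _ => (0 : ℝ))]
    · simp
    · intro θ hθ
      rw [Set.uIcc_of_le h2] at hθ
      show max 0 (min 1 ((a - θ) / k)) = 0
      have h3 : (a - θ) / k ≤ 0 := div_nonpos_of_nonpos_of_nonneg (by linarith [hθ.1]) hk.le
      rw [min_eq_right (by linarith), max_eq_left h3]
  rw [e1, e2, e3]
  ring

theorem psi (l δ : ℝ) (h0 : 0 < l) (h1 : l < 1) (hδ : 0 < δ) : ∃ ψ : ℂ → ℝ, Continuous ψ ∧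
    (∀ z, 0 ≤ ψ z ∧ ψ z ≤ 1) ∧ av ψ = l ∧
    av (fun z => Set.indicator {z : ℂ | 0 < ψ z ∧ ψ z < 1} (fun _ => (1 : ℝ)) z) ≤ δ := by
  have hpi := Real.pi_pos
  obtain ⟨k, hk0, hk1, hk2, hk3⟩ : ∃ k : ℝ, 0 < k ∧ k ≤ Real.pi * l ∧ k ≤ Real.pi * (1 - l) ∧
      k ≤ Real.pi * δ := by
    have h2 : 0 < 1 - l := by linarith
    refine ⟨min (min (Real.pi * l) (Real.pi * (1 - l))) (Real.pi * δ), by positivity,
      (min_le_left _ _).trans (min_le_left _ _), (min_le_left _ _).trans (min_le_right _ _),
      min_le_right _ _⟩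
  obtain ⟨a, ha⟩ : ∃ a : ℝ, a = Real.pi * l + k / 2 := ⟨_, rfl⟩
  have ha1 : k ≤ a := by linarith
  have ha2 : a ≤ Real.pi := by linarith
  refine ⟨fun z => Hf a k (Real.arccos z.re), ?_, ?_, ?_, ?_⟩
  · exact (Hf_cont a k).comp (Real.continuous_arccos.comp Complex.continuous_re)
  · intro z
    exact ⟨le_max_left _ _, max_le zero_le_one (min_le_left _ _)⟩
  · rw [av_arccos (Hf a k) ((Hf_cont a k).intervalIntegrable _ _), Hf_int hk0 ha1 ha2, ha]
    field_simp
    ring
  · obtain ⟨H2, hH2⟩ : ∃ H2 : ℝ → ℝ, H2 = Set.indicator (Set.Ioo (a - k) a) fun _ => (1 : ℝ) :=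
      ⟨_, rfl⟩
    have e1 : (fun z : ℂ => Set.indicator {z : ℂ | 0 < Hf a k (Real.arccos z.re) ∧
        Hf a k (Real.arccos z.re) < 1} (fun _ => (1 : ℝ)) z) =
        fun z : ℂ => H2 (Real.arccos z.re) := by
      funext z
      rw [hH2]
      by_cases hz : Real.arccos z.re ∈ Set.Ioo (a - k) a
      · rw [Set.indicator_of_mem hz, Set.indicator_of_mem]
        have h3 : (a - Real.arccos z.re) / k < 1 := by
          rw [div_lt_one hk0]
          linarith [hz.1]
        have h4 : 0 < (a - Real.arccos z.re) / k := div_pos (by linarith [hz.2]) hk0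
        show 0 < max 0 (min 1 ((a - Real.arccos z.re) / k)) ∧
          max 0 (min 1 ((a - Real.arccos z.re) / k)) < 1
        rw [min_eq_right h3.le, max_eq_right h4.le]
        exact ⟨h4, h3⟩
      · rw [Set.indicator_of_notMem hz, Set.indicator_of_notMem]
        rintro ⟨h5, h6⟩
        apply hz
        change 0 < max 0 (min 1 ((a - Real.arccos z.re) / k)) at h5
        change max 0 (min 1 ((a - Real.arccos z.re) / k)) < 1 at h6
        have h7 : 0 < min 1 ((a - Real.arccos z.re) / k) := by
          rcases lt_max_iff.mp h5 with h | h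
          · exact absurd h (lt_irrefl _)
          · exact h
        have h8 : 0 < (a - Real.arccos z.re) / k := (lt_min_iff.mp h7).2
        have h9 : min 1 ((a - Real.arccos z.re) / k) < 1 := (max_lt_iff.mp h6).2
        have h10 : (a - Real.arccos z.re) / k < 1 := by
          rcases min_lt_iff.mp h9 with h | h
          · exact absurd h (lt_irrefl _)
          · exact h
        rw [div_lt_one hk0] at h10
        have h11 : 0 < a - Real.arccos z.re := by
          by_contra hc
          exact absurd h8 (not_lt.mpr (div_nonpos_of_nonpos_of_nonneg (not_lt.mp hc) hk0.le))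
        exact ⟨by linarith, by linarith⟩
    rw [e1]
    have hint : Integrable H2 volume := by
      rw [hH2]
      exact (integrableOn_const (by simp) (by simp)).integrable_indicator measurableSet_Ioo
    rw [av_arccos H2 hint.intervalIntegrable]
    have e2 : ∫ θ in (0 : ℝ)..Real.pi, H2 θ ≤ k := by
      rw [intervalIntegral.integral_of_le hpi.le]
      have h3 : ∫ θ in Set.Ioc 0 Real.pi, H2 θ ≤ ∫ θ, H2 θ := by
        refine setIntegral_le_integral hint (Filter.Eventually.of_forall fun θ => ?_)
        rw [hH2]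
        exact Set.indicator_nonneg (fun _ _ => zero_le_one) θ
      refine h3.trans (le_of_eq ?_)
      rw [hH2, integral_indicator measurableSet_Ioo]
      simp
      linarith
    have e3 : Real.pi⁻¹ * ∫ θ in (0 : ℝ)..Real.pi, H2 θ ≤ Real.pi⁻¹ * (Real.pi * δ) :=
      mul_le_mul_of_nonneg_left (e2.trans hk3) (by positivity)
    refine e3.trans (le_of_eq ?_)
    field_simp

theorem main : S_PSI := fun l δ h0 h1 hδ => psi l δ h0 h1 hδ

end Pool.Agent.TH416.DH.Psi
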